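import Mathlib
import Pool.Agent.Q13.MA.Main

set_option autoImplicit false

/-!
# MP_8865d3_nt: Vojta's conjecture with the multiplier ideal correction term on projective spaces,
# for all ideals generated by products of linear forms, with an exceptional set which depends only
# on the arrangement of hyperplanes

`X = ℙ^N` over `ℚ`, with homogeneous coordinates `x_0, …, x_N`, and `𝓛` is a finite family of linear
forms with rational coefficients (written with integral coefficients). No condition on the position
of the hyperplanes is made. We consider ALL ideal sheaves `I` which are generated by products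
`∏_i 𝓛_i ^ (e_i)`, for instance all sums of products of powers of the ideals of the linear subspaces
cut out by the forms of `𝓛`. (The generators may have different degrees, as usual.)

No resolution of singularities is chosen: the multiplier ideal `I⁻` is described by valuations. For a
real valuation `w` of the function field of `X` (it has a centre on `X`) let `A(w)` be the log
discrepancy. A form `u` is in `I⁻` if and only if `w(u) + A(w) ≥ w(I)` for all `w`. The log
discrepancy is described by logarithmic differential forms: with `|·| = exp (- w)` (normalised such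
that the maximum of the `|x_i|` is `1`) the number `exp (- A(w))` is the norm of the canonical sheaf
of `X` at the centre of `w`, where a differential form has norm at most `r` if it is a combination
of forms `dlog p_0 ∧ ⋯ ∧ dlog p_N` with coefficients of norm at most `r`. (On a log resolution
`(X', E)` with a monomial valuation `w` in local coordinates `t_i` the form `dlog t_1 ∧ ⋯ ∧ dlog t_N`
has norm `1`, hence `A(w) = w(K_{X'/X}) + w(E)`.) The forms on `X` with values in `O(N + 1)` are the
forms of degree `N + 1` on the affine cone over `X`, generated by `dx_0 ∧ ⋯ ∧ dx_N`. These are the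
definitions of the starting file `AllIdealsSparsePoints`, for `X = ℙ^N`.
-/

namespace Pool.Agent.Results.MP_8865d3_nt.ArrangementIdeals

open MvPolynomial

/-- `x` is a primitive integer vector; every rational point of a projective space is represented by
exactly two of them, `x` and `-x` -/
def IsPrimitive {n : ℕ} (x : Fin n → ℤ) : Prop :=
  Finset.univ.gcd x = 1

/-- `max |x_i|`, the multiplicative height of the point given by a primitive `x` -/
def height {n : ℕ} (x : Fin n → ℤ) : ℕ :=
  Finset.univ.sup (fun i => (x i).natAbs)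

/-- The linear form with the coefficients `a`. -/
noncomputable def linearForm {n : ℕ} (a : Fin n → ℤ) : MvPolynomial (Fin n) ℤ :=
  ∑ i, C (a i) * X i

/-- The products `m_j ∏_i 𝓛_i ^ (e_j i)`, the generators of the ideal `I`. -/
noncomputable def generators {n q a : ℕ} (𝓛 : Fin q → Fin n → ℤ) (m : Fin a → ℤ)
    (e : Fin a → Fin q → ℕ) (j : Fin a) : MvPolynomial (Fin n) ℤ :=
  C (m j) * ∏ i, linearForm (𝓛 i) ^ e j i

/-- The valuation `w` (written multiplicatively, `w = exp (- v)` for the additive valuation `v`)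
gives a real valuation of the function field of `X`, by its values on quotients of forms of the same
degree. It is trivial on `ℚ` and normalised by `max_i w(x_i) = 1`, so `w(P) = |P / x_i ^ deg P|` for
the forms `P`, if `w(x_i) = 1`. All real valuations of the function field are of this kind. -/
def IsPlace {n : ℕ} (w : Valuation (MvPolynomial (Fin n) ℤ) NNReal) : Prop :=
  (∀ c : ℤ, c ≠ 0 → w (C c) = 1) ∧ (∀ i, w (X i) ≤ 1) ∧ (∃ i, w (X i) = 1) ∧
    ∀ (P : MvPolynomial (Fin n) ℤ) (e : ℕ), P.IsHomogeneous e → (w P = 0 ↔ P = 0)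

/-- `dx_0 ∧ ⋯ ∧ dx_N = ∑_k (h_k / q) dlog p_{k 0} ∧ ⋯ ∧ dlog p_{k N}` for forms `p_{k i} ≠ 0` and
quotients `h_k / q` of forms, of degree `n = N + 1`, with `w(h_k / q) ≤ r`. The identity is the one
of the coefficients of `dx_0 ∧ ⋯ ∧ dx_N`, in the field of rational functions. -/
def LogBound {n : ℕ} (w : Valuation (MvPolynomial (Fin n) ℤ) NNReal) (r : NNReal) : Prop :=
  ∃ (T e : ℕ) (q : MvPolynomial (Fin n) ℤ) (h : Fin T → MvPolynomial (Fin n) ℤ)
    (p : Fin T → Fin n → MvPolynomial (Fin n) ℤ),
    q.IsHomogeneous e ∧ w q ≠ 0 ∧ (∀ k, (h k).IsHomogeneous (e + n) ∧ w (h k) ≤ r * w q) ∧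
    (∀ k i, (∃ d, (p k i).IsHomogeneous d) ∧ w (p k i) ≠ 0) ∧
    ∑ k, algebraMap _ (FractionRing (MvPolynomial (Fin n) ℤ)) (h k) /
      algebraMap _ (FractionRing (MvPolynomial (Fin n) ℤ)) q *
      (Matrix.of fun i j => algebraMap _ (FractionRing (MvPolynomial (Fin n) ℤ))
        (pderiv i (p k j)) / algebraMap _ (FractionRing (MvPolynomial (Fin n) ℤ)) (p k j)).det = 1

/-- `exp (- A(w)) ≤ r` for the log discrepancy `A(w)`. -/
def LogDiscrepancyGE {n : ℕ} (w : Valuation (MvPolynomial (Fin n) ℤ) NNReal) (r : NNReal) : Prop :=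
  ∀ r' : NNReal, r < r' → LogBound w r'

/-- The form `u` is in the multiplier ideal `I⁻` of the ideal `I` generated by the forms `f j`:
`w(u) exp (- A(w)) ≤ max_j w(f j)`, that is, `v(u) + A(v) ≥ v(I)` additively, for all real
valuations of the function field of `X`. -/
def InMultiplierIdeal {n a : ℕ} (f : Fin a → MvPolynomial (Fin n) ℤ)
    (u : MvPolynomial (Fin n) ℤ) : Prop :=
  ∀ w : Valuation (MvPolynomial (Fin n) ℤ) NNReal, IsPlace w →
    ∃ r : NNReal, LogDiscrepancyGE w r ∧ w u * r ≤ ⨆ j, w (f j)

/-- The local height at the infinite place of the ideal generated by the forms `f j` of degree `d j`,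
at a primitive `x`: minus the logarithm of `max_j |f j x| / max |x_i| ^ d j`. -/
noncomputable def localHeightInf {n a : ℕ} (f : Fin a → MvPolynomial (Fin n) ℤ) (d : Fin a → ℕ)
    (x : Fin n → ℤ) : ℝ :=
  -Real.log (⨆ j, |((eval x (f j) : ℤ) : ℝ)| / (height x : ℝ) ^ d j)

/-- The local height at the prime `p` of the ideal generated by the forms `f j`, at a primitive `x`:
minus the logarithm of `max_j |f j x|_p`. -/
noncomputable def localHeight {n a : ℕ} (f : Fin a → MvPolynomial (Fin n) ℤ) (p : ℕ)
    (x : Fin n → ℤ) : ℝ :=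
  -Real.log (⨆ j, ((padicNorm p ((eval x (f j) : ℤ) : ℚ) : ℚ) : ℝ))

/-- The sum of the local heights at the infinite place and at the primes `p ∈ S`. -/
noncomputable def proximity {n a : ℕ} (f : Fin a → MvPolynomial (Fin n) ℤ) (d : Fin a → ℕ)
    (S : Finset ℕ) (x : Fin n → ℤ) : ℝ :=
  localHeightInf f d x + ∑ p ∈ S, localHeight f p x

/-- The height `h_K(x) = - (N + 1) h(x)` for the canonical divisor of `ℙ^N`. -/
noncomputable def canonicalHeight {N : ℕ} (x : Fin (N + 1) → ℤ) : ℝ :=
  -((N : ℝ) + 1) * Real.log (height x)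

/-- **Main theorem.** Let `𝓛` be a finite family of nonzero linear forms in `N + 1` variables over
`ℚ`. There is a finite set `Z` of proper linear subspaces of `ℚ^(N+1)`, so a proper closed subset of
`ℙ^N`, which depends only on `𝓛`, such that for ALL ideal sheaves `I ≠ 0` on `ℙ^N` generated by
products of forms of `𝓛`, ALL finite families of forms `u j` which generate the multiplier ideal
`I⁻` (or are any elements of `I⁻`; for a generating family the second proximity function is the one
of `I⁻`, else it is larger), ALL finite sets `S` of primes and ALL `ε > 0` there is a constant `C`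
such that
`h_K(x) + ∑_{v ∈ S ∪ {∞}} λ_I(x, v) - ∑_{v ∈ S ∪ {∞}} λ_{I⁻}(x, v) ≤ ε h(x) + C`
for all rational points `x` of `ℙ^N` outside `Z` at which some `u j` does not vanish. (If the `u j`
generate `I⁻ ⊇ I`, this last condition is true for all `x` outside `Z`, since `Z` contains the
hyperplanes `𝓛 i = 0`.) -/
theorem result (N q : ℕ) (𝓛 : Fin q → Fin (N + 1) → ℤ) (h𝓛 : ∀ i, 𝓛 i ≠ 0) :
    ∃ Z : Finset (Submodule ℚ (Fin (N + 1) → ℚ)), (∀ W ∈ Z, W ≠ ⊤) ∧
      (∀ i, ∃ W ∈ Z, ∀ x : Fin (N + 1) → ℚ, x ∈ W ↔ ∑ j, (𝓛 i j : ℚ) * x j = 0) ∧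
      ∀ (a r : ℕ) (m : Fin (a + 1) → ℤ) (e : Fin (a + 1) → Fin q → ℕ)
        (u : Fin r → MvPolynomial (Fin (N + 1)) ℤ) (c : Fin r → ℕ), (∀ j, m j ≠ 0) →
        (∀ j, (u j).IsHomogeneous (c j)) →
        (∀ j, InMultiplierIdeal (generators 𝓛 m e) (u j)) →
        ∀ S : Finset ℕ, (∀ p ∈ S, p.Prime) → ∀ ε : ℝ, 0 < ε → ∃ C : ℝ,
          ∀ x : Fin (N + 1) → ℤ, IsPrimitive x → (∀ W ∈ Z, (fun j => (x j : ℚ)) ∉ W) →
            (∃ j, eval x (u j) ≠ 0) →
            canonicalHeight x + proximity (generators 𝓛 m e) (fun j => ∑ i, e j i) S x -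
              proximity u c S x ≤ ε * Real.log (height x) + C := by
  classical
  refine ⟨(Pool.Agent.Q13.MA.ZZ_finite 𝓛).toFinset, ?_, ?_, ?_⟩
  · intro W hW
    exact Pool.Agent.Q13.MA.ZZ_ne_top 𝓛 h𝓛 W ((Set.Finite.mem_toFinset _).1 hW)
  · intro i
    refine ⟨LinearMap.ker (Pool.Agent.Q13.MA.fun' (Pool.Agent.Q13.MA.ext 𝓛 (Fin.castAdd _ i))),
      (Set.Finite.mem_toFinset _).2 (Or.inr ⟨_, rfl⟩), fun x => ?_⟩
    rw [LinearMap.mem_ker, Pool.Agent.Q13.MA.ext_left, Pool.Agent.Q13.MA.fun'_apply]
  · intro a r m e u c hm hu hmult S hS ε hε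
    obtain ⟨C, hC⟩ := Pool.Agent.Q13.MA.maMain 𝓛 h𝓛 a r m hm e u c hu hmult S hS ε hε
    refine ⟨C, fun x hx hZ hux => ?_⟩
    have h1 := hC x hx (fun W hW => hZ W ((Set.Finite.mem_toFinset _).2 hW)) hux
    have h2 : proximity (generators 𝓛 m e) (fun j => ∑ i, e j i) S x - proximity u c S x ≤
        (((N + 1 : ℕ) : ℝ) + ε) * Real.log (height x) + C := h1
    unfold canonicalHeight
    push_cast at h2
    linarith

end Pool.Agent.Results.MP_8865d3_nt.ArrangementIdeals
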