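import Pool.Agent.Q229.RAF2
import Pool.Agent.Results.MP_8865d3_nt.EveryCover

/-!
# MP_8865d3_nt: Vojta's inequality for arbitrary covers above ALL good rational approximations of almost every real vector

Let `A` be a finite normal domain over `R = ℚ[X_0, …, X_n]`, of rank `N` (the cone over a finite cover of `ℙ^n`), whose branch
divisor contains the different irreducible forms `F_j` of degree `k_j`, with reduced preimages of degree at most `s_j`. The
starting file `EveryCover` shows that for `κ < ∑ k_j (1 - s_j / N)`, a divisor `G = 0` and a finite set `S` of places all but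
`C B ^ (n + 1 - c)` of the rational points `x` of height at most `B` satisfy
`log |disc K| / N ≥ κ log B + m_S(G, x)` for all fields `K` of degree `N` which are generated by a point of the cover above `x`.

Every real vector `z` has infinitely many rational approximations `x_j / x_0` with distance at most `|x| ^ (-(n+1)/n)` up to
a constant (Dirichlet), and for almost every `z` this exponent is optimal. We show: for almost every real vector `z`, for ALL
`κ < ∑ k_j (1 - s_j / N)`, ALL divisors `G` and ALL finite sets `S` of primes, ALL but finitely many of the integral vectors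
`x` with `|x_j / x_0 - z_j| ≤ |x| ^ (-(n+1)/n)` satisfy `log |disc K| / N ≥ κ log |x| + m_S(G, x)` for all points above `x`.
For given `κ, G, S` there is `σ < n + 1` such that for every metric space `M` and map `φ`, for example to `ℙ^n(ℚ_p)`, the
points `z` of `M` with infinitely many exceptions with `dist(φ(x), z) ≤ |x| ^ (-τ)` have Hausdorff dimension at most `σ / τ`.
-/

set_option autoImplicit false

namespace Pool.Agent.Results.MP_8865d3_nt.CoversNearRealVectors

open MvPolynomial MeasureTheory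
open Pool.Agent.Results.MP_8865d3_nt.EveryCover (SheetsLE FewCoincidences logDisc proximity)

/-- the height of an integral vector: the largest absolute value of a coordinate -/
noncomputable def size {n : ℕ} (x : Fin n → ℤ) : ℝ := ((Finset.univ.sup fun i => (x i).natAbs : ℕ) : ℝ)

/-- `x` is an exception: for some field `K` of degree `N`, generated by a point of the cover above `x`,
`log |disc K| / N < κ log |x| + m_S(G, x)`. -/
def Exceptional {n : ℕ} (A : Type) [CommRing A] [Algebra (MvPolynomial (Fin (n + 1)) ℚ) A] (N : ℕ) (κ : ℝ)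
    (G : MvPolynomial (Fin (n + 1)) ℤ) (d : ℕ) (S : Finset ℕ) (x : Fin (n + 1) → ℤ) : Prop :=
  ∃ (K : Type) (_ : Field K) (_ : NumberField K) (φ : A →+* K),
    Function.Surjective φ ∧ Module.finrank ℚ K = N ∧
    (∀ i, φ (algebraMap (MvPolynomial (Fin (n + 1)) ℚ) A (X i)) = x i) ∧
    logDisc K < κ * Real.log (size x) + proximity G d S x

/-- the affine coordinates `x_1 / x_0, …, x_n / x_0` -/
noncomputable def coord {n : ℕ} (x : Fin (n + 1) → ℤ) : Fin n → ℝ := fun j => (x j.succ : ℝ) / (x 0 : ℝ)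

/-- the data: a finite normal domain `A` of rank `N` over the polynomial ring, different irreducible forms `F_j` of degree
`k_j` (with few coincidences or `k_j ≤ 2`), and numbers `s_j ≤ N` such that the reduced preimage of `F_j = 0` has degree at
most `s_j` over it -/
structure Cover (n : ℕ) (A : Type) [CommRing A] [IsDomain A] [Algebra (MvPolynomial (Fin (n + 1)) ℚ) A] (N q : ℕ)
    (F : Fin q → MvPolynomial (Fin (n + 1)) ℤ) (k s : Fin q → ℕ) : Prop where
  rank : Module.finrank (MvPolynomial (Fin (n + 1)) ℚ) A = N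
  homogeneous : ∀ j, (F j).IsHomogeneous (k j)
  irreducible : ∀ j, Irreducible (map (Int.castRingHom ℚ) (F j))
  different : ∀ i j, i ≠ j → ¬ Associated (map (Int.castRingHom ℚ) (F i)) (map (Int.castRingHom ℚ) (F j))
  few : ∀ j, k j ≤ 2 ∨ FewCoincidences (F j) (k j)
  sheets_le : ∀ j, s j ≤ N
  sheets : ∀ j, SheetsLE A (map (Int.castRingHom ℚ) (F j)) (s j)

theorem count {n : ℕ} {A : Type} [CommRing A] [IsDomain A] [IsIntegrallyClosed A]
    [Algebra (MvPolynomial (Fin (n + 1)) ℚ) A] [FaithfulSMul (MvPolynomial (Fin (n + 1)) ℚ) A]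
    [Module.Finite (MvPolynomial (Fin (n + 1)) ℚ) A] {N q : ℕ} {F : Fin q → MvPolynomial (Fin (n + 1)) ℤ}
    {k s : Fin q → ℕ} (h : Cover n A N q F k s) (G : MvPolynomial (Fin (n + 1)) ℤ) (d : ℕ) (hG : G.IsHomogeneous d)
    (hG0 : G ≠ 0) (S : Finset ℕ) (hS : ∀ p ∈ S, p.Prime) (κ : ℝ) (hκ0 : 0 ≤ κ)
    (hκ : κ < ∑ j, (k j : ℝ) * (1 - (s j : ℝ) / N)) :
    ∃ σ C T₀ : ℝ, σ < (n : ℝ) + 1 ∧ ∀ T : ℝ, T₀ ≤ T →
      {x | x ∈ {x | x 0 ≠ 0 ∧ Exceptional A N κ G d S x} ∧ size x ≤ T}.Finite ∧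
      ({x | x ∈ {x | x 0 ≠ 0 ∧ Exceptional A N κ G d S x} ∧ size x ≤ T}.ncard : ℝ) ≤ C * T ^ σ := by
  obtain ⟨c, hc, C, hC⟩ := EveryCover.result n A N h.rank q F k s h.homogeneous h.irreducible h.different h.few
    h.sheets_le h.sheets G d hG hG0 S hS κ hκ
  refine ⟨max ((n : ℝ) + 1 - c) 0, |C|, 1, ?_, fun T hT => ?_⟩
  · refine max_lt (by linarith) (by positivity)
  have hT0 : 0 ≤ T := by linarith
  set B : ℕ := ⌊T⌋₊ with hB
  have hB1 : 1 ≤ B := Nat.le_floor (by exact_mod_cast hT)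
  have hBT : (B : ℝ) ≤ T := Nat.floor_le hT0
  have hBr : (1 : ℝ) ≤ (B : ℝ) := by exact_mod_cast hB1
  have h1 := hC B hB1
  set W : Set (Fin (n + 1) → ℤ) := {x : Fin (n + 1) → ℤ | (∀ i, |x i| ≤ B) ∧
        ∃ (K : Type) (_ : Field K) (_ : NumberField K) (φ : A →+* K),
          Function.Surjective φ ∧ Module.finrank ℚ K = N ∧
          (∀ i, φ (algebraMap (MvPolynomial (Fin (n + 1)) ℚ) A (X i)) = x i) ∧
          logDisc K < κ * Real.log B + proximity G d S x} with hW
  have hWfin : W.Finite := by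
    refine (Set.finite_Icc (fun _ : Fin (n + 1) => -(B : ℤ)) (fun _ => (B : ℤ))).subset ?_
    rintro x ⟨h2, -⟩
    exact ⟨fun i => (abs_le.1 (h2 i)).1, fun i => (abs_le.1 (h2 i)).2⟩
  have hsub : {x | x ∈ {x | x 0 ≠ 0 ∧ Exceptional A N κ G d S x} ∧ size x ≤ T} ⊆ W := by
    rintro x ⟨⟨h2, K, _, _, φ, h3, h4, h5, h6⟩, h7⟩
    have h8 : (Finset.univ.sup fun i => (x i).natAbs) ≤ B := Nat.le_floor h7
    have h9 : ∀ i, (x i).natAbs ≤ B := fun i => (Finset.le_sup (f := fun i => (x i).natAbs) (Finset.mem_univ i)).trans h8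
    refine ⟨fun i => ?_, K, inferInstance, inferInstance, φ, h3, h4, h5, lt_of_lt_of_le h6 ?_⟩
    · have := h9 i
      rw [Int.abs_eq_natAbs]
      exact_mod_cast this
    · have h10 : 1 ≤ (Finset.univ.sup fun i => (x i).natAbs) := by
        have h11 : 1 ≤ (x 0).natAbs := Int.natAbs_pos.2 h2
        exact h11.trans (Finset.le_sup (f := fun i => (x i).natAbs) (Finset.mem_univ 0))
      have h11 : Real.log (size x) ≤ Real.log B := by
        refine Real.log_le_log ?_ ?_
        · unfold size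
          exact_mod_cast h10
        · unfold size
          exact_mod_cast h8
      have := mul_le_mul_of_nonneg_left h11 hκ0
      linarith
  refine ⟨hWfin.subset hsub, ?_⟩
  have h2 : (({x | x ∈ {x | x 0 ≠ 0 ∧ Exceptional A N κ G d S x} ∧ size x ≤ T}.ncard : ℕ) : ℝ) ≤ (W.ncard : ℝ) := by
    exact_mod_cast Set.ncard_le_ncard hsub hWfin
  refine h2.trans (h1.trans ?_)
  calc C * (B : ℝ) ^ ((n : ℝ) + 1 - c) ≤ |C| * (B : ℝ) ^ ((n : ℝ) + 1 - c) :=
        mul_le_mul_of_nonneg_right (le_abs_self C) (Real.rpow_nonneg (by linarith) _)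
    _ ≤ |C| * T ^ (max ((n : ℝ) + 1 - c) 0) := by
        refine mul_le_mul_of_nonneg_left ?_ (abs_nonneg C)
        exact (Real.rpow_le_rpow_of_exponent_le hBr (le_max_left _ _)).trans
          (Real.rpow_le_rpow (by linarith) hBT (le_max_right _ _))

theorem exc_mono {n : ℕ} {A : Type} [CommRing A] [Algebra (MvPolynomial (Fin (n + 1)) ℚ) A] {N : ℕ} {κ κ' : ℝ}
    (h : κ ≤ κ') {G : MvPolynomial (Fin (n + 1)) ℤ} {d : ℕ} {S : Finset ℕ} {x : Fin (n + 1) → ℤ} (hx : x 0 ≠ 0)
    (hE : Exceptional A N κ G d S x) : Exceptional A N κ' G d S x := by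
  obtain ⟨K, _, _, φ, h3, h4, h5, h6⟩ := hE
  refine ⟨K, inferInstance, inferInstance, φ, h3, h4, h5, lt_of_lt_of_le h6 ?_⟩
  have h10 : 1 ≤ (Finset.univ.sup fun i => (x i).natAbs) := by
    have h11 : 1 ≤ (x 0).natAbs := Int.natAbs_pos.2 hx
    exact h11.trans (Finset.le_sup (f := fun i => (x i).natAbs) (Finset.mem_univ 0))
  have h11 : 0 ≤ Real.log (size x) := Real.log_nonneg (by unfold size; exact_mod_cast h10)
  have := mul_le_mul_of_nonneg_right h h11
  linarith

/-- Let `A`, `F_j`, `k_j`, `s_j` be as in `Cover`, `n ≥ 1` and `Θ = ∑ k_j (1 - s_j / N) > 0`.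
(1) For `0 ≤ κ < Θ`, a form `G ≠ 0` of degree `d` and a finite set `S` of primes there is `σ < n + 1` such that for every
metric space `M`, every map `φ` from the integral vectors to `M` and every `τ > 0` the points `z` of `M` with infinitely many
exceptions `x`, `x_0 ≠ 0`, with `dist(φ(x), z) ≤ |x| ^ (-τ)` form a set of Hausdorff dimension at most `σ / τ`.
(2) For almost every real vector `z`, for all `κ < Θ`, all `G` and `S`, there are only finitely many exceptions `x`, `x_0 ≠ 0`,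
with `|x_j / x_0 - z_j| ≤ |x| ^ (-(n+1)/n)` for all `j`. -/
theorem result (n : ℕ) (hn : 1 ≤ n) (A : Type) [CommRing A] [IsDomain A] [IsIntegrallyClosed A]
    [Algebra (MvPolynomial (Fin (n + 1)) ℚ) A] [FaithfulSMul (MvPolynomial (Fin (n + 1)) ℚ) A]
    [Module.Finite (MvPolynomial (Fin (n + 1)) ℚ) A] (N q : ℕ) (F : Fin q → MvPolynomial (Fin (n + 1)) ℤ)
    (k s : Fin q → ℕ) (h : Cover n A N q F k s) (hΘ : 0 < ∑ j, (k j : ℝ) * (1 - (s j : ℝ) / N)) :
    (∀ κ : ℝ, 0 ≤ κ → κ < ∑ j, (k j : ℝ) * (1 - (s j : ℝ) / N) →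
      ∀ (G : MvPolynomial (Fin (n + 1)) ℤ) (d : ℕ), G.IsHomogeneous d → G ≠ 0 →
      ∀ S : Finset ℕ, (∀ p ∈ S, p.Prime) → ∃ σ : ℝ, σ < (n : ℝ) + 1 ∧
        ∀ (M : Type) [MetricSpace M] (φ : (Fin (n + 1) → ℤ) → M) (τ : ℝ), 0 < τ →
          dimH {z : M | {x | (x 0 ≠ 0 ∧ Exceptional A N κ G d S x) ∧ dist (φ x) z ≤ size x ^ (-τ)}.Infinite} ≤
            ENNReal.ofReal (σ / τ)) ∧
    ∀ᵐ z : Fin n → ℝ, ∀ κ : ℝ, κ < ∑ j, (k j : ℝ) * (1 - (s j : ℝ) / N) →
      ∀ (G : MvPolynomial (Fin (n + 1)) ℤ) (d : ℕ), G.IsHomogeneous d → G ≠ 0 →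
      ∀ S : Finset ℕ, (∀ p ∈ S, p.Prime) →
        {x | (x 0 ≠ 0 ∧ Exceptional A N κ G d S x) ∧
          ∀ j, |coord x j - z j| ≤ size x ^ (-(((n : ℝ) + 1) / n))}.Finite := by
  have hn0 : (0 : ℝ) < n := by exact_mod_cast hn
  set Θ : ℝ := ∑ j, (k j : ℝ) * (1 - (s j : ℝ) / N) with hΘd
  constructor
  · intro κ hκ0 hκ G d hG hG0 S hS
    obtain ⟨σ, C, T₀, h1, h2⟩ := count h G d hG hG0 S hS κ hκ0 hκ
    exact ⟨σ, h1, fun M _ φ τ hτ => Pool.Agent.Q229.RAH.dim φ _ size (Pool.Agent.Q229.RAF2.up h2) τ hτ⟩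
  · have hτ : (0 : ℝ) < ((n : ℝ) + 1) / n := by positivity
    have hkey : ∀ (m : ℕ) (G : MvPolynomial (Fin (n + 1)) ℤ) (d : ℕ) (S : Finset ℕ), ∀ᵐ z : Fin n → ℝ,
        G.IsHomogeneous d → G ≠ 0 → (∀ p ∈ S, p.Prime) →
        {x | (x 0 ≠ 0 ∧ Exceptional A N (Θ - Θ / ((m : ℝ) + 1)) G d S x) ∧
          dist (coord x) z ≤ size x ^ (-(((n : ℝ) + 1) / n))}.Finite := by
      intro m G d S
      by_cases hGS : G.IsHomogeneous d ∧ G ≠ 0 ∧ ∀ p ∈ S, p.Prime
      · obtain ⟨hG, hG0, hS⟩ := hGS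
        have hm0 : (0 : ℝ) < (m : ℝ) + 1 := by positivity
        have hm1 : Θ / ((m : ℝ) + 1) ≤ Θ := div_le_self hΘ.le (by linarith [(Nat.cast_nonneg m : (0 : ℝ) ≤ m)])
        have hm2 : 0 < Θ / ((m : ℝ) + 1) := by positivity
        obtain ⟨σ, C, T₀, h1, h2⟩ := count h G d hG hG0 S hS (Θ - Θ / ((m : ℝ) + 1)) (by linarith) (by linarith)
        have h3 := Pool.Agent.Q229.RAH.dim (coord (n := n)) _ size (Pool.Agent.Q229.RAF2.up h2) (((n : ℝ) + 1) / n) hτ
        have h0 : volume {z : Fin n → ℝ | {x | x ∈ {x | x 0 ≠ 0 ∧ Exceptional A N (Θ - Θ / ((m : ℝ) + 1)) G d S x} ∧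
            dist (coord x) z ≤ size x ^ (-(((n : ℝ) + 1) / n))}.Infinite} = 0 := by
          refine Pool.Agent.Q229.RAG.null_of_dimH volume (lt_of_le_of_lt h3 ?_)
          rw [Module.finrank_fin_fun, show ((n : ℕ) : ENNReal) = ENNReal.ofReal n by rw [ENNReal.ofReal_natCast],
            ENNReal.ofReal_lt_ofReal_iff hn0, div_lt_iff₀ hτ]
          calc σ < (n : ℝ) + 1 := h1
            _ = n * (((n : ℝ) + 1) / n) := by field_simp
        filter_upwards [measure_eq_zero_iff_ae_notMem.1 h0] with z hz _ _ _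
        exact Set.not_infinite.1 hz
      · exact Filter.Eventually.of_forall fun z h1 h2 h3 => absurd ⟨h1, h2, h3⟩ hGS
    have hcG : Countable (MvPolynomial (Fin (n + 1)) ℤ) := by
      rw [← Cardinal.mk_le_aleph0_iff]
      refine MvPolynomial.cardinalMk_le_max.trans ?_
      simp
    have hall : ∀ᵐ z : Fin n → ℝ, ∀ (m : ℕ) (G : MvPolynomial (Fin (n + 1)) ℤ) (d : ℕ) (S : Finset ℕ),
        G.IsHomogeneous d → G ≠ 0 → (∀ p ∈ S, p.Prime) →
        {x | (x 0 ≠ 0 ∧ Exceptional A N (Θ - Θ / ((m : ℝ) + 1)) G d S x) ∧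
          dist (coord x) z ≤ size x ^ (-(((n : ℝ) + 1) / n))}.Finite := by
      rw [ae_all_iff]
      intro m
      rw [ae_all_iff]
      intro G
      rw [ae_all_iff]
      intro d
      rw [ae_all_iff]
      exact hkey m G d
    filter_upwards [hall] with z hz κ hκ G d hG hG0 S hS
    obtain ⟨m, hm⟩ := exists_nat_one_div_lt (show (0 : ℝ) < (Θ - κ) / Θ by
      have : 0 < Θ - κ := by linarith
      positivity)
    have hm2 : κ ≤ Θ - Θ / ((m : ℝ) + 1) := by
      rw [lt_div_iff₀ hΘ] at hm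
      have : 1 / ((m : ℝ) + 1) * Θ = Θ / ((m : ℝ) + 1) := by ring
      linarith
    refine (hz m G d S hG hG0 hS).subset ?_
    rintro x ⟨⟨h1, h2⟩, h3⟩
    refine ⟨⟨h1, exc_mono hm2 h1 h2⟩, ?_⟩
    refine (dist_pi_le_iff (Real.rpow_nonneg ?_ _)).2 fun j => ?_
    · unfold size
      exact Nat.cast_nonneg _
    · rw [Real.dist_eq]
      exact h3 j

end Pool.Agent.Results.MP_8865d3_nt.CoversNearRealVectors
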