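import Pool.Agent.Q229.RAH
import Pool.Agent.Results.MP_8865d3_nt.MonomialIdeals

/-!
# MP_8865d3_nt: Vojta's inequality with multiplier ideals at ALL good approximations of almost every point

Let `K` be a number field of degree `d`, `φ : K → ℂ` an embedding, `a_0, …, a_{q-1}` linear forms in `n + 1` variables over
`K`, any `n + 1` of them linearly independent, and `X_m → ℙ^n` the cover `y_i ^ m = a_i(x)` (a smooth complete intersection).
Every complex vector `z` (real vector, if `φ` is real) has approximations `x ∈ ℙ^n(K)` with `|φ(x) - z|` of the order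
`H(x)^(-(n+1)d/(2n))` (`H(x)^(-(n+1)d/n)`), in affine coordinates, and for almost all vectors these exponents are optimal.

We show that for almost all `z` all but finitely many of these `x` satisfy Vojta's inequality with multiplier ideals
`(θ m - q) h(P) + ∑_{v ∈ S ∪ {∞}} (λ_I - λ_{I⁻})(P, v) ≤ d(P) + ∑_{p ∈ S} log p + c` for all `θ < q`, all `c`, ALL `m ≥ 1`,
ALL points `P` of `X_m` above `x`, ALL monomial ideals `I` and ALL finite sets `S` of primes; the vectors with infinitely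
many exceptions of exponent `τ` form a set of Hausdorff dimension at most `d e(n, q, θ) / τ`, where `e(n, q, θ) < n + 1` for
`θ < q`. (For `θ = q - n - 1 - ε` the first term is `h_K(P) - ε m h(P)`.)

Proof: the number of exceptional points of bounded height (starting file `MonomialIdeals`) and a covering.
-/

set_option autoImplicit false

namespace Pool.Agent.Results.MP_8865d3_nt.GoodApproximations

open NumberField IsDedekindDomain LinearAlgebra.Projectivization MeasureTheory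

/-- The value of the linear form with coefficients `a` at `x`. -/
def lin {K : Type} [Field K] {n : ℕ} (a x : Fin (n + 1) → K) : K := ∑ j, a j * x j

/-- The absolute multiplicative height of a point of `ℙ^n(K)`. -/
noncomputable def H {K : Type} [Field K] [NumberField K] {n : ℕ}
    (x : ℙ K (Fin (n + 1) → K)) : ℝ := Real.exp (Real.log x.mulHeight / Module.finrank ℚ K)

/-- The absolute logarithmic height of the point with homogeneous coordinates `y` over `L`. -/
noncomputable def height {L : Type} [Field L] [NumberField L] {q : ℕ} (y : Fin q → L) : ℝ :=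
  Height.logHeight y / Module.finrank ℚ L

/-- The Weil function `λ_i = log (max_j |y_j| / |y_i|)` of `D_i`, for an absolute value. -/
noncomputable def weil {L : Type} [Field L] {q : ℕ} (f : AbsoluteValue L ℝ) (y : Fin q → L)
    (i : Fin q) : ℝ := Real.log ((⨆ j, f (y j)) / f (y i))

/-- The Newton polyhedron of the ideal with exponents `E`. -/
def newton {q : ℕ} (E : Finset (Fin q → ℕ)) : Set (Fin q → ℝ) :=
  {t | ∃ s ∈ convexHull ℝ ((fun (e : Fin q → ℕ) i => (e i : ℝ)) '' (E : Set (Fin q → ℕ))),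
    ∀ i, s i ≤ t i}

/-- The local height `λ_I = min_{e ∈ E} ∑_i e_i λ_i`. -/
noncomputable def lamIdeal {L : Type} [Field L] {q : ℕ} (f : AbsoluteValue L ℝ) (y : Fin q → L)
    (E : Finset (Fin q → ℕ)) : ℝ := ⨅ e : E, ∑ i, (e.1 i : ℝ) * weil f y i

/-- The local height `λ_{I⁻} = min ∑_i u_i λ_i`, over all `u` with `u + (1, …, 1)` in the Newton
polyhedron. -/
noncomputable def lamMinus {L : Type} [Field L] {q : ℕ} (f : AbsoluteValue L ℝ) (y : Fin q → L)
    (E : Finset (Fin q → ℕ)) : ℝ :=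
  ⨅ u : {u : Fin q → ℕ | (fun i => (u i : ℝ) + 1) ∈ newton E}, ∑ i, (u.1 i : ℝ) * weil f y i

/-- The sum of `λ_I - λ_{I⁻}` over the places above `S` and infinity, divided by `[L : ℚ]`. The
absolute values are normalised so that the product formula holds: `|b|_w = N(w) ^ (- w(b))`. -/
noncomputable def proximity (S : Finset ℕ) {L : Type} [Field L] [NumberField L] {q : ℕ}
    (y : Fin q → L) (E : Finset (Fin q → ℕ)) : ℝ :=
  (∑ w : InfinitePlace L, (w.mult : ℝ) * (lamIdeal w.1 y E - lamMinus w.1 y E) +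
    ∑ᶠ w ∈ {w : HeightOneSpectrum (𝓞 L) | ∃ p ∈ S, (p : 𝓞 L) ∈ w.asIdeal},
      (lamIdeal (FinitePlace.mk w).1 y E - lamMinus (FinitePlace.mk w).1 y E)) /
    Module.finrank ℚ L

/-- The logarithmic discriminant `log |disc L| / [L : ℚ]`. -/
noncomputable def logDisc (L : Type) [Field L] [NumberField L] : ℝ :=
  Real.log |(discr L : ℝ)| / Module.finrank ℚ L

/-- The exceptional points `x ∈ ℙ^n(K)` off the hyperplanes: for some `m ≥ 1`, some number field `L` which contains `K`,
some point `P` of `X_m` over `L` above `x`, some ideal and some finite set `S` of primes the inequality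
`(θ m - q) h(P) + ∑_{v ∈ S ∪ {∞}} (λ_I - λ_{I⁻})(P, v) ≤ d(L) + ∑_{p ∈ S} log p + c` fails. -/
def Exceptional {K : Type} [Field K] [NumberField K] {n q : ℕ} (a : Fin q → Fin (n + 1) → K)
    (θ c : ℝ) (x : ℙ K (Fin (n + 1) → K)) : Prop :=
  (∀ i, lin (a i) x.rep ≠ 0) ∧
    ∃ (m : ℕ) (L : Type) (_ : Field L) (_ : NumberField L) (_ : Algebra K L) (y : Fin q → L) (t : L)
      (E : Finset (Fin q → ℕ)) (S : Finset ℕ), 1 ≤ m ∧ t ≠ 0 ∧
        (∀ i, y i ^ m = t * algebraMap K L (lin (a i) x.rep)) ∧ E.Nonempty ∧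
        (∀ p ∈ S, p.Prime) ∧
        logDisc L + ∑ p ∈ S, Real.log p + c < (θ * m - q) * height y + proximity S y E

/-- The exponent: the smaller of `θ (1 - binom(q - n, n + 1) / binom(q, n + 1))` and
`(n + 1) (1 - n (q - θ) / (q (q - 1)))`. It is smaller than `n + 1` for `θ < q`. -/
noncomputable def exponent (n q : ℕ) (θ : ℝ) : ℝ :=
  min (θ * (1 - ((q - n).choose (n + 1) : ℝ) / (q.choose (n + 1) : ℝ)))
    (((n : ℝ) + 1) * (1 - (n : ℝ) * ((q : ℝ) - θ) / ((q : ℝ) * ((q : ℝ) - 1))))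

/-- The images of the affine coordinates `x_1 / x_0, …, x_n / x_0` in `ℂ`. -/
noncomputable def coord {K : Type} [Field K] {n : ℕ} (φ : K →+* ℂ) (x : ℙ K (Fin (n + 1) → K)) : Fin n → ℂ :=
  fun j => φ (x.rep j.succ / x.rep 0)

/-- The exceptional points with `x_0 ≠ 0` at distance at most `H(x) ^ (-τ)` (maximum norm) from `z`. -/
def Near {K : Type} [Field K] [NumberField K] {n q : ℕ} (φ : K →+* ℂ) (a : Fin q → Fin (n + 1) → K) (θ c τ : ℝ)
    (z : Fin n → ℂ) : Set (ℙ K (Fin (n + 1) → K)) :=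
  {x | (x.rep 0 ≠ 0 ∧ Exceptional a θ c x) ∧ ‖coord φ x - z‖ ≤ H x ^ (-τ)}

theorem count {K : Type} [Field K] [NumberField K] {n q : ℕ} (hn : 1 ≤ n) (hq : n + 1 ≤ q)
    (a : Fin q → Fin (n + 1) → K)
    (ha : ∀ I : Finset (Fin q), I.card = n + 1 → LinearIndependent K (fun i : I => a i))
    (θ c : ℝ) (hθ : 0 ≤ θ) (σ' : ℝ) (hσ : (Module.finrank ℚ K : ℝ) * exponent n q θ < σ') :
    ∃ C T₀ : ℝ, ∀ T : ℝ, T₀ ≤ T → {x | x ∈ {x | x.rep 0 ≠ 0 ∧ Exceptional a θ c x} ∧ H x ≤ T}.Finite ∧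
      ({x | x ∈ {x | x.rep 0 ≠ 0 ∧ Exceptional a θ c x} ∧ H x ≤ T}.ncard : ℝ) ≤ C * T ^ σ' := by
  obtain ⟨M, hM⟩ := MonomialIdeals.result K n q hn hq a ha θ c
    (σ' - (Module.finrank ℚ K : ℝ) * exponent n q θ) hθ (by linarith)
  refine ⟨M, 1, fun T hT => ?_⟩
  obtain ⟨h1, h2⟩ := hM T hT
  have h3 : {x | x ∈ {x | x.rep 0 ≠ 0 ∧ Exceptional a θ c x} ∧ H x ≤ T} ⊆ MonomialIdeals.exceptional a θ c T := by
    rintro x ⟨⟨-, h4, h5⟩, h6⟩
    exact ⟨h4, h6, h5⟩
  have h4 : (Module.finrank ℚ K : ℝ) * exponent n q θ + (σ' - (Module.finrank ℚ K : ℝ) * exponent n q θ) = σ' := by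
    ring
  refine ⟨h1.subset h3, ?_⟩
  have h5 : ((MonomialIdeals.exceptional a θ c T).ncard : ℝ) ≤ M * T ^ σ' := by
    have h6 := h2
    have e1 : MonomialIdeals.exponent n q θ = exponent n q θ := rfl
    rw [e1, h4] at h6
    exact h6
  refine le_trans ?_ h5
  exact_mod_cast Set.ncard_le_ncard h3 h1

theorem exc_mono {K : Type} [Field K] [NumberField K] {n q : ℕ} {a : Fin q → Fin (n + 1) → K} {θ θ' c c' : ℝ}
    (hθ : θ ≤ θ') (hc : c' ≤ c) {x : ℙ K (Fin (n + 1) → K)} (h : Exceptional a θ c x) : Exceptional a θ' c' x := by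
  obtain ⟨h1, m, L, _, _, _, y, t, E, S, hm, ht, hy, hE, hS, h2⟩ := h
  refine ⟨h1, m, L, inferInstance, inferInstance, inferInstance, y, t, E, S, hm, ht, hy, hE, hS, ?_⟩
  have h3 : 0 ≤ height y := div_nonneg (Height.logHeight_nonneg _) (Nat.cast_nonneg _)
  have h4 : (θ * m - q) * height y ≤ (θ' * m - q) * height y := by
    refine mul_le_mul_of_nonneg_right ?_ h3
    have : θ * m ≤ θ' * m := mul_le_mul_of_nonneg_right hθ (Nat.cast_nonneg _)
    linarith
  linarith

theorem exponent_lt {n q : ℕ} (hn : 1 ≤ n) (hq : n + 1 ≤ q) {θ : ℝ} (hθ : θ < q) : exponent n q θ < n + 1 := by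
  refine lt_of_le_of_lt (min_le_right _ _) ?_
  have hn0 : (0 : ℝ) < n := by exact_mod_cast hn
  have hq1 : (1 : ℝ) < q := by exact_mod_cast (by omega : 1 < q)
  have h1 : 0 < (n : ℝ) * ((q : ℝ) - θ) / ((q : ℝ) * ((q : ℝ) - 1)) :=
    div_pos (mul_pos hn0 (by linarith)) (mul_pos (by linarith) (by linarith))
  have h2 : (0 : ℝ) < (n : ℝ) + 1 := by linarith
  nlinarith

/-- **Good approximations.** Let `K` be a number field of degree `d` with an embedding `φ : K → ℂ`, `n ≥ 1`, `q ≥ n + 1`, and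
let `a_0, …, a_{q-1}` be linear forms in `n + 1` variables over `K`, any `n + 1` of them linearly independent.
(1) For `θ ≥ 0`, `c` and `τ > 0` the `z ∈ ℂ^n` with infinitely many exceptional points at distance at most `H(x)^(-τ)`
form a set of Hausdorff dimension at most `d e(n, q, θ) / τ`.
(2) For almost every `z ∈ ℂ^n` there are, for all `θ < q` and all `c`, only finitely many exceptional points at distance at
most `H(x)^(-(n+1)d/(2n))` from `z`.
(3) For almost every `t ∈ ℝ^n` there are, for all `θ < q` and all `c`, only finitely many exceptional points at distance at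
most `H(x)^(-(n+1)d/n)` from `t`. -/
theorem result (K : Type) [Field K] [NumberField K] (φ : K →+* ℂ) (n q : ℕ) (hn : 1 ≤ n) (hq : n + 1 ≤ q)
    (a : Fin q → Fin (n + 1) → K)
    (ha : ∀ I : Finset (Fin q), I.card = n + 1 → LinearIndependent K (fun i : I => a i)) :
    (∀ θ c τ : ℝ, 0 ≤ θ → 0 < τ → dimH {z : Fin n → ℂ | (Near φ a θ c τ z).Infinite} ≤
      ENNReal.ofReal ((Module.finrank ℚ K : ℝ) * exponent n q θ / τ)) ∧
    (∀ θ : ℝ, θ < q → exponent n q θ < n + 1) ∧
    (∀ᵐ z : Fin n → ℂ, ∀ θ c : ℝ, θ < q →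
      (Near φ a θ c (((n : ℝ) + 1) * Module.finrank ℚ K / (2 * n)) z).Finite) ∧
    (∀ᵐ t : Fin n → ℝ, ∀ θ c : ℝ, θ < q →
      (Near φ a θ c (((n : ℝ) + 1) * Module.finrank ℚ K / n) (fun j => (t j : ℂ))).Finite) := by
  have hd0 : (0 : ℝ) < (Module.finrank ℚ K : ℝ) := by exact_mod_cast Module.finrank_pos
  have hn0 : (0 : ℝ) < n := by exact_mod_cast hn
  have hq1 : (1 : ℝ) < q := by exact_mod_cast (by omega : 1 < q)
  -- the sequence of parameters
  set θs : ℕ → ℝ := fun k => q - 1 / ((k : ℝ) + 1) with hθs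
  have hθ0 : ∀ k, 0 ≤ θs k := by
    intro k
    have h1 : 1 / ((k : ℝ) + 1) ≤ 1 := by
      rw [div_le_one (by positivity)]
      linarith [(Nat.cast_nonneg k : (0 : ℝ) ≤ k)]
    simp only [hθs]
    linarith
  have hθq : ∀ k, θs k < q := by
    intro k
    have h1 : 0 < 1 / ((k : ℝ) + 1) := by positivity
    simp only [hθs]
    linarith
  have hex : ∀ θ c : ℝ, θ < q → ∃ k : ℕ, θ ≤ θs k ∧ -(k : ℝ) ≤ c := by
    intro θ c hθ
    obtain ⟨n1, hn1⟩ := exists_nat_one_div_lt (show (0 : ℝ) < q - θ by linarith)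
    obtain ⟨n2, hn2⟩ := exists_nat_ge (-c)
    refine ⟨max n1 n2, ?_, ?_⟩
    · have h1 : 1 / (((max n1 n2 : ℕ) : ℝ) + 1) ≤ 1 / ((n1 : ℝ) + 1) := by
        refine one_div_le_one_div_of_le (by positivity) ?_
        have : (n1 : ℝ) ≤ ((max n1 n2 : ℕ) : ℝ) := by exact_mod_cast le_max_left _ _
        linarith
      simp only [hθs]
      linarith
    · have : (n2 : ℝ) ≤ ((max n1 n2 : ℕ) : ℝ) := by exact_mod_cast le_max_right _ _
      linarith
  have hcnt := fun k : ℕ => count hn hq a ha (θs k) (-(k : ℝ)) (hθ0 k)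
  refine ⟨fun θ c τ hθ hτ => ?_, fun θ hθ => exponent_lt hn hq hθ, ?_, ?_⟩
  · have h1 := Pool.Agent.Q229.RAH.dim (coord (n := n) φ) {x | x.rep 0 ≠ 0 ∧ Exceptional a θ c x} H
      (count hn hq a ha θ c hθ) τ hτ
    simp only [dist_eq_norm] at h1
    exact h1
  · have h1 := Pool.Agent.Q229.RAH.ae_complex hn (coord (n := n) φ) H
      (fun k => {x | x.rep 0 ≠ 0 ∧ Exceptional a (θs k) (-(k : ℝ)) x})
      (fun k => (Module.finrank ℚ K : ℝ) * exponent n q (θs k)) hcnt
      (((n : ℝ) + 1) * Module.finrank ℚ K / (2 * n)) (by positivity) (fun k => by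
        have h2 := exponent_lt hn hq (hθq k)
        have h3 : 2 * (n : ℝ) * (((n : ℝ) + 1) * Module.finrank ℚ K / (2 * n)) =
            (Module.finrank ℚ K : ℝ) * ((n : ℝ) + 1) := by
          field_simp
        rw [h3]
        exact mul_lt_mul_of_pos_left h2 hd0)
    filter_upwards [h1] with z hz θ c hθ
    obtain ⟨k, hk1, hk2⟩ := hex θ c hθ
    refine (hz k).subset ?_
    rintro x ⟨⟨h3, h4⟩, h5⟩
    exact ⟨⟨h3, exc_mono hk1 hk2 h4⟩, h5⟩
  · have h1 := Pool.Agent.Q229.RAH.ae_real hn (coord (n := n) φ) H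
      (fun k => {x | x.rep 0 ≠ 0 ∧ Exceptional a (θs k) (-(k : ℝ)) x})
      (fun k => (Module.finrank ℚ K : ℝ) * exponent n q (θs k)) hcnt
      (((n : ℝ) + 1) * Module.finrank ℚ K / n) (by positivity) (fun k => by
        have h2 := exponent_lt hn hq (hθq k)
        have h3 : (n : ℝ) * (((n : ℝ) + 1) * Module.finrank ℚ K / n) =
            (Module.finrank ℚ K : ℝ) * ((n : ℝ) + 1) := by
          field_simp
        rw [h3]
        exact mul_lt_mul_of_pos_left h2 hd0)
    filter_upwards [h1] with z hz θ c hθ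
    obtain ⟨k, hk1, hk2⟩ := hex θ c hθ
    refine (hz k).subset ?_
    rintro x ⟨⟨h3, h4⟩, h5⟩
    exact ⟨⟨h3, exc_mono hk1 hk2 h4⟩, h5⟩

end Pool.Agent.Results.MP_8865d3_nt.GoodApproximations
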