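import Mathlib
import Pool.Agent.Q13.MA.Ext

set_option autoImplicit false

/-!
# MP_8865d3_nt: Vojta's conjecture with the multiplier ideal correction term on projective spaces,
# for ALL ideals, at the points which are nearly extremal for the subspace theorem

`X = ℙ^N` over `ℚ`, with homogeneous coordinates `x_0, …, x_N`, and `𝓛` is a finite family of linear
forms with rational coefficients (written with integral coefficients). By the subspace theorem of
Schmidt and Schlickewei, for any choice of `N + 1` linearly independent forms of `𝓛` at each place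
`v` of `S ∪ {∞}` the sum of the Weil functions of these forms is at most `(N + 1 + δ) h(x) + O(1)` for
the rational points `x` outside a finite union of proper linear subspaces. Here we consider the points
at which such a sum is at least `(N + 1 - δ) h(x)`, so the points at which the theorem is nearly
sharp. Examples are all points whose coordinates are `S`-units and, more generally, the points given by
Minkowski's theorem for lattices `{x : p^(k_(p,j)) divides ℓ_(p,j)(x)}` and convex bodies defined by
`N + 1` of the forms, if they are primitive and of about the expected height. We prove Vojta's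
inequality at these points for ALL ideal sheaves `I` on `ℙ^N`.

No resolution of singularities is chosen: the multiplier ideal `I⁻` is described by valuations. For a
real valuation `w` of the function field of `X` (it has a centre on `X`) let `A(w)` be the log
discrepancy. A form `u` is in `I⁻` if and only if `w(u) + A(w) ≥ w(I)` for all `w`. The log
discrepancy is described by logarithmic differential forms: with `|·| = exp (- w)` (normalised such
that the maximum of the `|x_i|` is `1`) the number `exp (- A(w))` is the norm of the canonical sheaf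
of `X` at the centre of `w`, where a differential form has norm at most `r` if it is a combination
of forms `dlog p_0 ∧ ⋯ ∧ dlog p_N` with coefficients of norm at most `r`. (On a log resolution
`(X', E)` with a monomial valuation `w` in local coordinates `t_i` the form `dlog t_1 ∧ ⋯ ∧ dlog t_N`
has norm `1`, hence `A(w) = w(K_{X'/X}) + w(E)`.) The forms on `X` with values in `O(N + 1)` are the
forms of degree `N + 1` on the affine cone over `X`, generated by `dx_0 ∧ ⋯ ∧ dx_N`. These are the
definitions of the starting file `AllIdealsSparsePoints`, for `X = ℙ^N`.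

Proof: for a sequence of such points, not contained in a hypersurface, the subspace theorem applied
to the monomials of degree `d` in the forms shows that no form of degree `d` is essentially smaller
at a place than the largest of its monomials in the `N + 1` linear forms of this place. So the
valuation defined by the sequence is monomial in these linear forms.
-/

namespace Pool.Agent.Results.MP_8865d3_nt.NearlyExtremalPoints

open MvPolynomial

/-- `x` is a primitive integer vector; every rational point of a projective space is represented by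
exactly two of them, `x` and `-x` -/
def IsPrimitive {n : ℕ} (x : Fin n → ℤ) : Prop :=
  Finset.univ.gcd x = 1

/-- `max |x_i|`, the multiplicative height of the point given by a primitive `x` -/
def height {n : ℕ} (x : Fin n → ℤ) : ℕ :=
  Finset.univ.sup (fun i => (x i).natAbs)

/-- The linear form with the coefficients `a`. -/
noncomputable def linearForm {n : ℕ} (a : Fin n → ℤ) : MvPolynomial (Fin n) ℤ :=
  ∑ i, C (a i) * X i

/-- The valuation `w` (written multiplicatively, `w = exp (- v)` for the additive valuation `v`)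
gives a real valuation of the function field of `X`, by its values on quotients of forms of the same
degree. It is trivial on `ℚ` and normalised by `max_i w(x_i) = 1`, so `w(P) = |P / x_i ^ deg P|` for
the forms `P`, if `w(x_i) = 1`. All real valuations of the function field are of this kind. -/
def IsPlace {n : ℕ} (w : Valuation (MvPolynomial (Fin n) ℤ) NNReal) : Prop :=
  (∀ c : ℤ, c ≠ 0 → w (C c) = 1) ∧ (∀ i, w (X i) ≤ 1) ∧ (∃ i, w (X i) = 1) ∧
    ∀ (P : MvPolynomial (Fin n) ℤ) (e : ℕ), P.IsHomogeneous e → (w P = 0 ↔ P = 0)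

/-- `dx_0 ∧ ⋯ ∧ dx_N = ∑_k (h_k / q) dlog p_{k 0} ∧ ⋯ ∧ dlog p_{k N}` for forms `p_{k i} ≠ 0` and
quotients `h_k / q` of forms, of degree `n = N + 1`, with `w(h_k / q) ≤ r`. The identity is the one
of the coefficients of `dx_0 ∧ ⋯ ∧ dx_N`, in the field of rational functions. -/
def LogBound {n : ℕ} (w : Valuation (MvPolynomial (Fin n) ℤ) NNReal) (r : NNReal) : Prop :=
  ∃ (T e : ℕ) (q : MvPolynomial (Fin n) ℤ) (h : Fin T → MvPolynomial (Fin n) ℤ)
    (p : Fin T → Fin n → MvPolynomial (Fin n) ℤ),
    q.IsHomogeneous e ∧ w q ≠ 0 ∧ (∀ k, (h k).IsHomogeneous (e + n) ∧ w (h k) ≤ r * w q) ∧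
    (∀ k i, (∃ d, (p k i).IsHomogeneous d) ∧ w (p k i) ≠ 0) ∧
    ∑ k, algebraMap _ (FractionRing (MvPolynomial (Fin n) ℤ)) (h k) /
      algebraMap _ (FractionRing (MvPolynomial (Fin n) ℤ)) q *
      (Matrix.of fun i j => algebraMap _ (FractionRing (MvPolynomial (Fin n) ℤ))
        (pderiv i (p k j)) / algebraMap _ (FractionRing (MvPolynomial (Fin n) ℤ)) (p k j)).det = 1

/-- `exp (- A(w)) ≤ r` for the log discrepancy `A(w)`. -/
def LogDiscrepancyGE {n : ℕ} (w : Valuation (MvPolynomial (Fin n) ℤ) NNReal) (r : NNReal) : Prop :=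
  ∀ r' : NNReal, r < r' → LogBound w r'

/-- The form `u` is in the multiplier ideal `I⁻` of the ideal `I` generated by the forms `f j`:
`w(u) exp (- A(w)) ≤ max_j w(f j)`, that is, `v(u) + A(v) ≥ v(I)` additively, for all real
valuations of the function field of `X`. -/
def InMultiplierIdeal {n a : ℕ} (f : Fin a → MvPolynomial (Fin n) ℤ)
    (u : MvPolynomial (Fin n) ℤ) : Prop :=
  ∀ w : Valuation (MvPolynomial (Fin n) ℤ) NNReal, IsPlace w →
    ∃ r : NNReal, LogDiscrepancyGE w r ∧ w u * r ≤ ⨆ j, w (f j)

/-- The local height at the infinite place of the ideal generated by the forms `f j` of degree `d j`,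
at a primitive `x`: minus the logarithm of `max_j |f j x| / max |x_i| ^ d j`. -/
noncomputable def localHeightInf {n a : ℕ} (f : Fin a → MvPolynomial (Fin n) ℤ) (d : Fin a → ℕ)
    (x : Fin n → ℤ) : ℝ :=
  -Real.log (⨆ j, |((eval x (f j) : ℤ) : ℝ)| / (height x : ℝ) ^ d j)

/-- The local height at the prime `p` of the ideal generated by the forms `f j`, at a primitive `x`:
minus the logarithm of `max_j |f j x|_p`. -/
noncomputable def localHeight {n a : ℕ} (f : Fin a → MvPolynomial (Fin n) ℤ) (p : ℕ)
    (x : Fin n → ℤ) : ℝ :=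
  -Real.log (⨆ j, ((padicNorm p ((eval x (f j) : ℤ) : ℚ) : ℚ) : ℝ))

/-- The sum of the local heights at the infinite place and at the primes `p ∈ S`. -/
noncomputable def proximity {n a : ℕ} (f : Fin a → MvPolynomial (Fin n) ℤ) (d : Fin a → ℕ)
    (S : Finset ℕ) (x : Fin n → ℤ) : ℝ :=
  localHeightInf f d x + ∑ p ∈ S, localHeight f p x

/-- The height `h_K(x) = - (N + 1) h(x)` for the canonical divisor of `ℙ^N`. -/
noncomputable def canonicalHeight {N : ℕ} (x : Fin (N + 1) → ℤ) : ℝ :=
  -((N : ℝ) + 1) * Real.log (height x)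

/-- The sum of the Weil functions `log (max_i |x_i|_v / |ℓ(x)|_v)` of the linear forms
`ℓ = 𝓛 (J₀ j)` at the infinite place and of the linear forms `ℓ = 𝓛 (J p j)` at the primes `p ∈ S`, at a
primitive `x`. -/
noncomputable def closeness {n q : ℕ} (𝓛 : Fin q → Fin n → ℤ) (S : Finset ℕ) (J₀ : Fin n → Fin q)
    (J : ℕ → Fin n → Fin q) (x : Fin n → ℤ) : ℝ :=
  ∑ j, Real.log ((height x : ℝ) / |((eval x (linearForm (𝓛 (J₀ j))) : ℤ) : ℝ)|) +
    ∑ p ∈ S, ∑ j,
      -Real.log ((padicNorm p ((eval x (linearForm (𝓛 (J p j))) : ℤ) : ℚ) : ℚ) : ℝ)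

/-- **Main theorem.** Let `𝓛` be a finite family of nonzero linear forms in `N + 1` variables over
`ℚ`. Let `I ≠ 0` be ANY ideal sheaf on `ℙ^N`, generated by forms `f j`, and let the forms `u j`
generate the multiplier ideal `I⁻` (or be any finite family in `I⁻`, not all zero; for a generating
family the second proximity function is the one of `I⁻`, else it is larger). Let `S` be a finite set
of primes and `ε > 0`. There are `δ > 0`, a form `Φ ≠ 0` and a constant `C` such that
`h_K(x) + ∑_{v ∈ S ∪ {∞}} λ_I(x, v) - ∑_{v ∈ S ∪ {∞}} λ_{I⁻}(x, v) ≤ ε h(x) + C`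
for all rational points `x` of `ℙ^N` off `Φ = 0` which are nearly extremal for the subspace theorem:
there are `N + 1` linearly independent forms of `𝓛` at each place of `S ∪ {∞}` whose Weil functions at
these places have at least the sum `(N + 1 - δ) h(x)`. -/
theorem result (N q : ℕ) (𝓛 : Fin q → Fin (N + 1) → ℤ) (h𝓛 : ∀ i, 𝓛 i ≠ 0) (a r : ℕ)
    (f : Fin a → MvPolynomial (Fin (N + 1)) ℤ) (d : Fin a → ℕ)
    (hf : ∀ j, (f j).IsHomogeneous (d j)) (hf0 : ∃ j, f j ≠ 0)
    (u : Fin r → MvPolynomial (Fin (N + 1)) ℤ) (c : Fin r → ℕ)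
    (hu : ∀ j, (u j).IsHomogeneous (c j)) (hu0 : ∃ j, u j ≠ 0)
    (hmult : ∀ j, InMultiplierIdeal f (u j)) (S : Finset ℕ) (hS : ∀ p ∈ S, p.Prime) (ε : ℝ)
    (hε : 0 < ε) :
    ∃ (δ : ℝ) (Φ : MvPolynomial (Fin (N + 1)) ℤ) (m : ℕ) (C : ℝ), 0 < δ ∧ Φ.IsHomogeneous m ∧
      Φ ≠ 0 ∧ ∀ x : Fin (N + 1) → ℤ, IsPrimitive x → eval x Φ ≠ 0 →
        ∀ (J₀ : Fin (N + 1) → Fin q) (J : ℕ → Fin (N + 1) → Fin q),
          LinearIndependent ℚ (fun j => fun i => (𝓛 (J₀ j) i : ℚ)) →
          (∀ p ∈ S, LinearIndependent ℚ (fun j => fun i => (𝓛 (J p j) i : ℚ))) →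
          ((N : ℝ) + 1 - δ) * Real.log (height x) ≤ closeness 𝓛 S J₀ J x →
          canonicalHeight x + proximity f d S x - proximity u c S x ≤
            ε * Real.log (height x) + C := by
  classical
  obtain ⟨j0, hj0⟩ := hf0
  obtain ⟨k0, hk0⟩ := hu0
  obtain ⟨δ, Φ, C, hδ, ⟨m, hm⟩, hΦ, h⟩ := Pool.Agent.Q13.MA.exMain (Nat.succ_pos N) 𝓛 h𝓛 a r f d hf
    j0 hj0 u c hu k0 hk0 hmult S hS ε hε
  refine ⟨δ, Φ, m, C, hδ, hm, hΦ, fun x hx hxΦ J₀ J hJ₀ hJ hcl => ?_⟩
  have h1 : (((N + 1 : ℕ) : ℝ) - δ) * Real.log (height x) ≤ closeness 𝓛 S J₀ J x := by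
    push_cast
    exact hcl
  have h2 : proximity f d S x - proximity u c S x ≤
      (((N + 1 : ℕ) : ℝ) + ε) * Real.log (height x) + C := h x hx hxΦ J₀ J hJ₀ hJ h1
  unfold canonicalHeight
  push_cast at h2
  linarith

end Pool.Agent.Results.MP_8865d3_nt.NearlyExtremalPoints
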